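import Pool.Agent.P.MP_2989a6_lc.Main

open Pool.Agent.P.MP_2989a6_lc

/-- Simultaneous geometric embedding of pairwise edge-disjoint spanning trees is hard for the
existential theory of the reals: every language with a polynomial-time many-one reduction to ETR
has one to this problem. -/
theorem Pool.Agent.Results.MP_2989a6_lc.TreesHard.result :
    ∀ L : List Bool → Prop,
      (∃ f : List Bool → Fm, Nonempty (Turing.TM2ComputableInPolyTime id Fm.code f) ∧
        ∀ x, L x ↔ ETR (f x)) →
      ∃ g : List Bool → Inst, Nonempty (Turing.TM2ComputableInPolyTime id Inst.code g) ∧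
        ∀ x, Valid (g x) ∧ (L x ↔ Yes (g x)) :=
  fun L ⟨f, hf, hL⟩ => hard L f hf hL
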